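import Pool.Agent.H49.CL.Targets

/-!
# Chains of equivalence relations: copies in general position (row GEN)
-/

set_option autoImplicit false
set_option linter.unusedVariables false

namespace Pool.Agent.H13.CLG

open Pool.Agent.H68.BP Pool.Agent.H58.SF Pool.Agent.H53.NR
open Pool.Agent.H57.AR (tp ty Ty)
open Pool.Agent.H57.EQ (Cx)
open Pool.Agent.H57.LH (RmV)
open Pool.Agent.H44.KR (HB Tyi TpOn)
open Pool.Agent.H44.FB (CptC EmbC)
open Pool.Agent.H72.CH
open Pool.Agent.H49.CL
open Function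

/-- equality of types of tuples, unfolded -/
theorem tp_iff {V W : Type} {ρ : Sig} {𝔹 : Str ρ V} {x y : W → V} :
    tp 𝔹 x = tp 𝔹 y ↔ (∀ a b, x a = x b ↔ y a = y b) ∧
      ∀ (l : Fin ρ.m) (z : Fin (ρ.ar l) → W), 𝔹 l (fun i => x (z i)) ↔ 𝔹 l (fun i => y (z i)) := by
  constructor
  · intro h
    exact ⟨fun a b => iff_of_eq (congrFun (congrFun (congrArg Prod.fst h) a) b),
      fun l z => iff_of_eq (congrFun (congrFun (congrArg Prod.snd h) l) z)⟩
  · rintro ⟨h2, h3⟩
    exact Prod.ext (funext fun a => funext fun b => propext (h2 a b))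
      (funext fun l => funext fun z => propext (h3 l z))

section

variable {V : Type} {ρ : Sig} {𝔹 : Str ρ V} {m : ℕ} {lv : V → V → ℕ}

/-- levels depend only on the types of pairs -/
theorem lv_tp (h : HV 𝔹 m lv) {J : Type} {x y : J → V} (hxy : tp 𝔹 x = tp 𝔹 y) (a b : J) :
    lv (x a) (x b) = lv (y a) (y b) := by
  refine h.inv ![x a, x b] ![y a, y b] ?_
  have h1 := tp_iff.1 hxy
  refine tp_iff.2 ⟨fun i j => ?_, fun l z => ?_⟩
  · fin_cases i <;> fin_cases j
    · exact h1.1 a a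
    · exact h1.1 a b
    · exact h1.1 b a
    · exact h1.1 b b
  · have h2 := h1.2 l (fun i => if z i = 0 then a else b)
    have h3 : ∀ u : J → V, (fun i => (![u a, u b] : Fin 2 → V) (z i)) =
        fun i => u (if z i = 0 then a else b) := by
      intro u
      funext i
      rcases h4 : z i with ⟨k, hk⟩
      interval_cases k
      · rfl
      · rfl
    rw [h3 x, h3 y]
    exact h2

/-- types of subtuples -/
theorem tp_comp {W W' : Type} {u v : W → V} (h : tp 𝔹 u = tp 𝔹 v) (z : W' → W) :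
    tp 𝔹 (fun a => u (z a)) = tp 𝔹 (fun a => v (z a)) :=
  tp_iff.2 ⟨fun a b => (tp_iff.1 h).1 (z a) (z b), fun l w => (tp_iff.1 h).2 l (fun i => z (w i))⟩

end

theorem pf_GEN : T_GEN := by
  intro V ρ 𝔹 m lv hV hAml hMul hLve hRlr i h g p₀ hh
  classical
  obtain ⟨κ, hκ⟩ := hRlr i h g p₀ hh.le
  refine ⟨κ, fun n z u F => ?_⟩
  have hult := hV.lev.pl.ult
  have hsym := hV.lev.pl.sym
  -- the new element
  obtain ⟨us, hus, hus'⟩ : ∃ us : V, lv us (z u) = h ∧ ∀ c, lv us (z c) ≤ h := by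
    obtain ⟨c1, c2, hc⟩ := hLve h hh.le
    obtain ⟨x', h1, h2, h3⟩ := hAml (Fin 2) {0} ![c1, c2] ![z u, z u] (Finset.univ.image z) (by
      constructor
      · rintro a ha b hb
        rw [Set.mem_singleton_iff.1 ha, Set.mem_singleton_iff.1 hb]
        simp
      · intro l w hw
        have e1 : (fun i => (![c1, c2] : Fin 2 → V) (w i)) = fun _ => c1 := by
          funext i
          rw [Set.mem_singleton_iff.1 (hw i)]
          rfl
        have e2 : (fun i => (![z u, z u] : Fin 2 → V) (w i)) = fun _ => z u := by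
          funext i
          rw [Set.mem_singleton_iff.1 (hw i)]
          rfl
        rw [e1, e2]
        exact iff_of_eq (congrFun (hV.one c1 (z u)) l))
    have h4 : x' 0 = z u := h2 0 rfl
    have h5 : lv (x' 1) (x' 0) = h := by
      rw [lv_tp hV h1 1 0]
      change lv c2 c1 = h
      rw [hsym, hc]
    refine ⟨x' 1, by rw [← h4, h5], fun c => ?_⟩
    by_contra hcon
    obtain ⟨a, ha, h6, -⟩ := h3 1 (z c) (Finset.mem_image.2 ⟨c, Finset.mem_univ _, rfl⟩)
      (lv (x' 1) (z c)) (by omega) le_rfl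
    rw [Set.mem_singleton_iff.1 ha] at h6
    have h7 : lv ((![c1, c2] : Fin 2 → V) 1) ((![c1, c2] : Fin 2 → V) 0) = h := by
      change lv c2 c1 = h
      rw [hsym, hc]
    rw [h7] at h6
    omega
  -- the copies
  obtain ⟨Y, hY1, hY2, hY3⟩ := hMul (Option (Fin n)) {none} (fun o => o.elim us z) (F.card + 1)
  have hYn : ∀ a, Y a none = us := fun a => hY2 a none rfl
  have hYlv : ∀ a (c d : Option (Fin n)), lv (Y a c) (Y a d) = lv (c.elim us z) (d.elim us z) :=
    fun a c d => lv_tp hV (hY1 a) c d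
  let e := Fintype.equivFin (Fin (F.card + 1) × Option (Fin n))
  obtain ⟨T, hT1, hT2, hT3⟩ := hκ _ (fun k => Y (e.symm k).1 (e.symm k).2) (e (0, none))
  have hTlv : ∀ a b c d, lv (T (e (a, c))) (T (e (b, d))) = lv (Y a c) (Y b d) := by
    intro a b c d
    have h1 := lv_tp hV hT1 (e (a, c)) (e (b, d))
    simpa only [Equiv.symm_apply_apply] using h1
  -- levels to the reference
  have hTw : ∀ a (c : Fin n), lv (T (e (a, some c))) (T (e (0, none))) = lv (z c) us := by
    intro a c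
    have h1 := hYlv a (some c) none
    rw [hYn a] at h1
    rw [hTlv, hYn 0]
    exact h1
  -- bad copies
  have hbad : ∀ v a b, a ≠ b →
      (∃ (c : Fin n) (j : ℕ), 1 ≤ j ∧ j ≤ lv (T (e (a, some c))) v ∧
        ¬ (j ≤ h ∧ j ≤ lv (T (e (a, some c))) p₀)) →
      ¬ ∃ (c : Fin n) (j : ℕ), 1 ≤ j ∧ j ≤ lv (T (e (b, some c))) v ∧
        ¬ (j ≤ h ∧ j ≤ lv (T (e (b, some c))) p₀) := by
    have key : ∀ v a b, a ≠ b → ∀ (c d : Fin n) (j j' : ℕ), 1 ≤ j → j ≤ j' →
        j ≤ lv (T (e (a, some c))) v → j' ≤ lv (T (e (b, some d))) v →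
        j ≤ h ∧ j ≤ lv (T (e (a, some c))) p₀ := by
      intro v a b hab c d j j' hj hjj h1 h2
      have h3 : j ≤ lv (T (e (a, some c))) (T (e (b, some d))) := by
        refine le_trans (le_min h1 ?_) (hult _ v _)
        rw [hsym]
        exact le_trans hjj h2
      rw [hTlv] at h3
      obtain ⟨q, hq, h4, -⟩ := hY3 a b hab _ _ j hj h3
      rw [Set.mem_singleton_iff.1 hq] at h4
      have h5 : j ≤ lv (z c) us := h4
      have h6 : j ≤ h := by
        refine le_trans h5 ?_
        rw [hsym]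
        exact hus' c
      refine ⟨h6, le_trans (le_min ?_ ?_) (hult _ (T (e (0, none))) _)⟩
      · rw [hTw]
        exact h5
      · exact le_trans h6 hT2
    rintro v a b hab ⟨c, j, h1, h2, h3⟩ ⟨d, j', h1', h2', h3'⟩
    rcases le_total j j' with hjj | hjj
    · exact h3 (key v a b hab c d j j' h1 hjj h2 h2')
    · exact h3' (key v b a hab.symm d c j' j h1' hjj h2' h2)
  obtain ⟨a, ha⟩ : ∃ a, ∀ v ∈ F, ¬ ∃ (c : Fin n) (j : ℕ), 1 ≤ j ∧
      j ≤ lv (T (e (a, some c))) v ∧ ¬ (j ≤ h ∧ j ≤ lv (T (e (a, some c))) p₀) := by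
    by_contra hcon
    push Not at hcon
    choose v hv hv' using hcon
    obtain ⟨a, b, hab, he⟩ := Fintype.exists_ne_map_eq_of_card_lt
      (fun a => (⟨v a, hv a⟩ : F)) (by simp)
    have he' : v a = v b := congrArg Subtype.val he
    obtain ⟨c, j, q1, q2, q3⟩ := hv' a
    obtain ⟨c', j', q1', q2', q3'⟩ := hv' b
    refine hbad (v a) a b hab ⟨c, j, q1, q2, fun q => ?_⟩ ⟨c', j', q1', ?_, fun q => ?_⟩
    · exact absurd (q3 q.1) (not_lt.2 q.2)
    · rw [he']; exact q2'
    · exact absurd (q3' q.1) (not_lt.2 q.2)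
  refine ⟨fun c => T (e (a, some c)), ?_, ?_, ?_, ?_⟩
  · have h1 := tp_comp hT1 (fun c : Fin n => e (a, some c))
    have h2 : (fun c : Fin n => Y (e.symm (e (a, some c))).1 (e.symm (e (a, some c))).2) =
        fun c => Y a (some c) := by
      funext c
      rw [Equiv.symm_apply_apply]
    rw [h1, h2]
    exact tp_comp (hY1 a) (fun c : Fin n => some c)
  · refine le_trans (le_min ?_ hT2) (hult _ (T (e (0, none))) _)
    rw [hTw, hsym, hus]
  · intro c v hv j hj hjl
    by_contra hcon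
    exact ha v hv ⟨c, j, hj, hjl, hcon⟩
  · intro c d hc hd
    have h1 : ∀ c, h ≤ lv (z c) (z u) → h ≤ lv ((fun k => Y (e.symm k).1 (e.symm k).2)
        (e (a, some c))) ((fun k => Y (e.symm k).1 (e.symm k).2) (e (0, none))) := by
      intro c hc
      simp only [Equiv.symm_apply_apply]
      rw [← hTlv, hTw]
      refine le_trans (le_min hc ?_) (hult _ (z u) _)
      rw [hsym, hus]
    have h2 := hT3 (e (a, some c)) (e (a, some d)) (h1 c hc) (h1 d hd)
    simp only [Equiv.symm_apply_apply] at h2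
    rw [h2, hYlv]
    rfl

end Pool.Agent.H13.CLG
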